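import Mathlib

set_option autoImplicit false

/-!
# The d-reflection preserves arbitrary products of T₀ spaces

Positive answer to Q1 of MP_c8df5e_gt. For every family `X i` of `T₀` spaces with `d`-reflections
`μ i : X i → Xd i`, the product map `∏ X i → ∏ Xd i` is a `d`-reflection; hence `(∏ X i)^d` is
homeomorphic to `∏ (X i)^d`.

Idea. A continuous map `μ : Z → Z'` into a `d`-space is a `d`-reflection if and only if every open
set of `Z` is a preimage of an open set and the only subset of `Z'` which contains `μ Z` and is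
closed under directed suprema is `Z'` (`isDReflection_of_gen`, `IsDReflection.gen`,
`IsDReflection.surj`). Let `S ⊆ ∏ Xd i` contain the image of `∏ X i` and be closed under directed
suprema. Changing one coordinate at a time, `S` contains every point `z` all but finitely many
coordinates of which are in the image. Every point of `Xd i` is above a point of the image of
`X i`. So an arbitrary `z` is the directed supremum of the points which agree with `z` on a finite
set `F` of coordinates, and with a fixed point of the image of `∏ X i`, below `z`, off `F`.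
-/

open Topology Set

namespace Pool.Agent.Results.MP_c8df5e_gt.ArbitraryProducts

universe u

/-- The specialization order: `x ≤ y` if and only if `x ∈ closure {y}`. -/
def SpecLE {X : Type u} [TopologicalSpace X] (x y : X) : Prop := x ∈ closure ({y} : Set X)

/-- `s` is the supremum of `D` in the specialization order. -/
def IsSup {X : Type u} [TopologicalSpace X] (D : Set X) (s : X) : Prop :=
  (∀ d ∈ D, SpecLE d s) ∧ ∀ b : X, (∀ d ∈ D, SpecLE d b) → SpecLE s b

/-- `X` is a `d`-space: it is `T₀`, every (nonempty) directed subset `D` of `X` in the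
specialization order has a supremum, and every open set which contains the supremum of `D` meets
`D`. -/
def IsDSpace (X : Type u) [TopologicalSpace X] : Prop :=
  T0Space X ∧ ∀ D : Set X, D.Nonempty → DirectedOn SpecLE D →
    ∃ s : X, IsSup D s ∧ ∀ U : Set X, IsOpen U → s ∈ U → (D ∩ U).Nonempty

/-- `(W, μ)` is a `d`-reflection of `X`: `W` is a `d`-space, `μ : X → W` is continuous, and every
continuous map of `X` into a `d`-space `Y` factors uniquely through `μ` by a continuous map. -/
def IsDReflection {X W : Type u} [TopologicalSpace X] [TopologicalSpace W] (μ : X → W) : Prop :=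
  IsDSpace W ∧ Continuous μ ∧
    ∀ (Y : Type u) [TopologicalSpace Y], IsDSpace Y → ∀ f : X → Y, Continuous f →
      ∃! g : W → Y, Continuous g ∧ g ∘ μ = f

section Basic

variable {X Y : Type u} [TopologicalSpace X] [TopologicalSpace Y]

theorem specLE_iff {x y : X} : SpecLE x y ↔ y ⤳ x := by
  unfold SpecLE
  rw [specializes_iff_mem_closure]

theorem SpecLE.mem {x y : X} (h : SpecLE x y) {U : Set X} (hU : IsOpen U) (hx : x ∈ U) : y ∈ U :=
  (specLE_iff.1 h).mem_open hU hx

theorem SpecLE.map {x y : X} (h : SpecLE x y) {f : X → Y} (hf : Continuous f) :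
    SpecLE (f x) (f y) := specLE_iff.2 ((specLE_iff.1 h).map hf)

theorem specLE_refl (x : X) : SpecLE x x := specLE_iff.2 specializes_rfl

theorem SpecLE.trans {x y z : X} (h : SpecLE x y) (h' : SpecLE y z) : SpecLE x z :=
  specLE_iff.2 ((specLE_iff.1 h').trans (specLE_iff.1 h))

theorem specLE_of_open {x y : X} (h : ∀ U : Set X, IsOpen U → x ∈ U → y ∈ U) : SpecLE x y :=
  specLE_iff.2 (specializes_iff_forall_open.2 h)

theorem SpecLE.antisymm [T0Space X] {x y : X} (h : SpecLE x y) (h' : SpecLE y x) : x = y :=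
  (specLE_iff.1 h').antisymm (specLE_iff.1 h) |>.eq

theorem eq_of_open [T0Space X] {x y : X} (h : ∀ U : Set X, IsOpen U → (x ∈ U ↔ y ∈ U)) : x = y :=
  (specLE_of_open fun U hU hx => (h U hU).1 hx).antisymm
    (specLE_of_open fun U hU hx => (h U hU).2 hx)

/-- In a `d`-space an open set contains the supremum of a directed set if and only if it meets the
directed set. -/
theorem IsDSpace.mem_iff (hX : IsDSpace X) {D : Set X} (hD : D.Nonempty)
    (hdir : DirectedOn SpecLE D) {s : X} (hs : IsSup D s) {U : Set X} (hU : IsOpen U) :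
    s ∈ U ↔ ∃ d ∈ D, d ∈ U := by
  have := hX.1
  obtain ⟨s', hs', h⟩ := hX.2 D hD hdir
  have e : s = s' := (hs.2 s' hs'.1).antisymm (hs'.2 s hs.1)
  subst e
  constructor
  · intro hsU
    obtain ⟨d, hd⟩ := h U hU hsU
    exact ⟨d, hd.1, hd.2⟩
  · rintro ⟨d, hd, hdU⟩
    exact (hs.1 d hd).mem hU hdU

/-- `S` is closed under suprema of directed sets. -/
def DirClosed (S : Set X) : Prop :=
  ∀ D : Set X, D ⊆ S → D.Nonempty → DirectedOn SpecLE D → ∀ s, IsSup D s → s ∈ S

/-- `μ` generates its codomain under directed suprema. -/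
def Gen (μ : X → Y) : Prop := ∀ S : Set Y, (∀ x, μ x ∈ S) → DirClosed S → ∀ y, y ∈ S

/-- every open set is a preimage -/
def Surj (μ : X → Y) : Prop := ∀ U : Set X, IsOpen U → ∃ V : Set Y, IsOpen V ∧ μ ⁻¹' V = U

/-- A subset of a `d`-space closed under directed suprema is a `d`-space. -/
theorem isDSpace_subtype (hX : IsDSpace X) {S : Set X} (hS : DirClosed S) : IsDSpace S := by
  have := hX.1
  refine ⟨inferInstance, fun D hD hdir => ?_⟩
  have hle : ∀ a b : S, SpecLE a b ↔ SpecLE (a : X) (b : X) := by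
    intro a b
    rw [specLE_iff, specLE_iff, subtype_specializes_iff]
  set D' : Set X := Subtype.val '' D with hD'
  have hD'n : D'.Nonempty := hD.image _
  have hdir' : DirectedOn SpecLE D' := by
    rintro _ ⟨a, ha, rfl⟩ _ ⟨b, hb, rfl⟩
    obtain ⟨c, hc, hac, hbc⟩ := hdir a ha b hb
    exact ⟨c, ⟨c, hc, rfl⟩, (hle _ _).1 hac, (hle _ _).1 hbc⟩
  obtain ⟨s, hs, hsU⟩ := hX.2 D' hD'n hdir'
  have hsS : s ∈ S := hS D' (by rintro _ ⟨a, _, rfl⟩; exact a.2) hD'n hdir' s hs
  refine ⟨⟨s, hsS⟩, ⟨fun d hd => (hle _ _).2 (hs.1 _ ⟨d, hd, rfl⟩), fun b hb => (hle _ _).2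
    (hs.2 _ ?_)⟩, ?_⟩
  · rintro _ ⟨a, ha, rfl⟩
    exact (hle _ _).1 (hb a ha)
  · intro U hU hsU'
    obtain ⟨V, hV, rfl⟩ := isOpen_induced_iff.1 hU
    obtain ⟨_, ⟨a, ha, rfl⟩, haV⟩ := hsU V hV hsU'
    exact ⟨a, ha, haV⟩

/-- The codomain of a `d`-reflection is generated by the image. -/
theorem IsDReflection.gen {μ : X → Y} (h : IsDReflection μ) : Gen μ := by
  intro S hS hcl
  obtain ⟨g, ⟨hg, hgμ⟩, -⟩ := h.2.2 S (isDSpace_subtype h.1 hcl) (fun x => ⟨μ x, hS x⟩)
    (h.2.1.subtype_mk _)
  obtain ⟨g', -, huniq⟩ := h.2.2 Y h.1 μ h.2.1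
  have h1 := huniq (Subtype.val ∘ g) ⟨continuous_subtype_val.comp hg, by
    rw [Function.comp_assoc, hgμ]; rfl⟩
  have h2 := huniq id ⟨continuous_id, rfl⟩
  intro y
  have h3 : ((g y : S) : Y) = y := by
    have := congrFun (h1.trans h2.symm) y
    exact this
  rw [← h3]
  exact (g y).2

/-- The Sierpinski space in the universe `u`. -/
abbrev Sier : Type u := ULift.{u} Prop

theorem isOpen_sier : IsOpen {p : Sier.{u} | p.down} := by
  have h : IsOpen ({True} : Set Prop) := isOpen_singleton_true
  have h2 := h.preimage (continuous_uliftDown : Continuous (ULift.down : Sier.{u} → Prop))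
  convert h2 using 1
  ext p
  simp

theorem continuous_sier {U : Set X} (hU : IsOpen U) :
    Continuous (fun x : X => (⟨x ∈ U⟩ : Sier.{u})) := by
  refine continuous_uliftUp.comp ?_
  exact continuous_Prop.2 hU

theorem isOpen_prop_of_false {U : Set Prop} (hU : IsOpen U) (h : False ∈ U) : U = univ := by
  have h2 : TopologicalSpace.GenerateOpen {{True}} U := hU
  induction h2 with
  | basic s hs =>
    rw [mem_singleton_iff] at hs
    subst hs
    simp at h
  | univ => rfl
  | inter s t hs ht ihs iht =>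
    rw [ihs hs h.1, iht ht h.2, inter_univ]
  | sUnion T hT ih =>
    obtain ⟨s, hs, hFs⟩ := h
    have := ih s hs (hT s hs) hFs
    exact eq_univ_of_subset (subset_sUnion_of_mem hs) this

theorem specLE_sier {p q : Sier.{u}} : SpecLE p q ↔ (p.down → q.down) := by
  constructor
  · intro h hp
    exact h.mem isOpen_sier hp
  · intro h
    refine specLE_of_open fun U hU hp => ?_
    have hV : IsOpen (ULift.up.{u} ⁻¹' U) := hU.preimage continuous_uliftUp
    by_cases hpd : p.down
    · have hq := h hpd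
      have e : p = q := by
        apply ULift.down_injective
        exact propext ⟨fun _ => hq, fun _ => hpd⟩
      rwa [← e]
    · have hF : p = ⟨False⟩ := by
        apply ULift.down_injective
        exact propext ⟨fun h => hpd h, False.elim⟩
      have h2 := isOpen_prop_of_false hV (by rw [mem_preimage, ← hF]; exact hp)
      have h3 : q.down ∈ (ULift.up.{u} ⁻¹' U) := by rw [h2]; trivial
      exact h3

/-- The Sierpinski space is a `d`-space. -/
theorem isDSpace_sier : IsDSpace Sier.{u} := by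
  refine ⟨⟨fun p q h => ?_⟩, fun D _ _ => ⟨⟨∃ d ∈ D, d.down⟩, ⟨fun d hd => ?_, fun b hb => ?_⟩,
    fun U hU hs => ?_⟩⟩
  · apply ULift.down_injective
    apply propext
    exact ⟨specLE_sier.1 (specLE_iff.2 h.specializes'), specLE_sier.1 (specLE_iff.2 h.specializes)⟩
  · exact specLE_sier.2 fun h => ⟨d, hd, h⟩
  · exact specLE_sier.2 fun ⟨d, hd, h⟩ => specLE_sier.1 (hb d hd) h
  · by_cases h : ∃ d ∈ D, d.down
    · obtain ⟨d, hd, hdd⟩ := h
      refine ⟨d, hd, ?_⟩
      have e : d = ⟨∃ d ∈ D, d.down⟩ := by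
        apply ULift.down_injective
        exact propext ⟨fun _ => ⟨d, hd, hdd⟩, fun _ => hdd⟩
      rwa [e]
    · obtain ⟨d, hd⟩ : D.Nonempty := by assumption
      refine ⟨d, hd, ?_⟩
      have e : d = ⟨∃ d ∈ D, d.down⟩ := by
        apply ULift.down_injective
        exact propext ⟨fun h' => ⟨d, hd, h'⟩, fun h' => absurd h' h⟩
      rwa [e]

/-- Every open set of `X` is the preimage of an open set of its `d`-reflection. -/
theorem IsDReflection.surj {μ : X → Y} (h : IsDReflection μ) : Surj μ := by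
  intro U hU
  obtain ⟨g, ⟨hg, hgμ⟩, -⟩ := h.2.2 Sier.{u} isDSpace_sier _ (continuous_sier hU)
  refine ⟨g ⁻¹' {p | p.down}, isOpen_sier.preimage hg, ?_⟩
  ext x
  have := congrFun hgμ x
  simp only [Function.comp_apply] at this
  rw [mem_preimage, mem_preimage, this]
  exact Iff.rfl

omit [TopologicalSpace X] in
/-- If the image generates the `d`-space `Y`, inclusions of open sets of `Y` may be tested on the
image. -/
theorem Gen.subset {μ : X → Y} (hY : IsDSpace Y) (hμ : Gen μ) {V W : Set Y} (hV : IsOpen V)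
    (hW : IsOpen W) (h : μ ⁻¹' V ⊆ μ ⁻¹' W) : V ⊆ W := by
  intro y hy
  refine hμ {y | y ∈ V → y ∈ W} (fun x hx => h hx) ?_ y hy
  intro D hDS hD hdir s hs hsV
  obtain ⟨d, hd, hdV⟩ := (hY.mem_iff hD hdir hs hV).1 hsV
  exact (hY.mem_iff hD hdir hs hW).2 ⟨d, hd, hDS hd hdV⟩

/-- The criterion for a `d`-reflection. -/
theorem isDReflection_of_gen {μ : X → Y} (hc : Continuous μ) (hY : IsDSpace Y) (hg : Gen μ)
    (hs : Surj μ) : IsDReflection μ := by
  refine ⟨hY, hc, ?_⟩
  intro Z _ hZ f hf
  have := hZ.1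
  have hex : ∀ V : Set Z, IsOpen V → ∃ V' : Set Y, IsOpen V' ∧ μ ⁻¹' V' = f ⁻¹' V :=
    fun V hV => hs _ (hV.preimage hf)
  choose! e he1 he2 using hex
  have key : ∀ y : Y, ∃ z : Z, ∀ V : Set Z, IsOpen V → (z ∈ V ↔ y ∈ e V) := by
    refine hg {y | ∃ z : Z, ∀ V : Set Z, IsOpen V → (z ∈ V ↔ y ∈ e V)} (fun x => ⟨f x, ?_⟩) ?_
    · intro V hV
      have := Set.ext_iff.1 (he2 V hV) x
      exact this.symm
    · intro D hDS hD hdir s hsup
      have : Nonempty Z := by
        obtain ⟨d, hd⟩ := hD
        obtain ⟨z, -⟩ := hDS hd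
        exact ⟨z⟩
      choose! z hz using fun d (hd : d ∈ D) => hDS hd
      have hmono : ∀ a ∈ D, ∀ b ∈ D, SpecLE a b → SpecLE (z a) (z b) := by
        intro a ha b hb hab
        refine specLE_of_open fun V hV h => ?_
        exact (hz b hb V hV).2 (hab.mem (he1 V hV) ((hz a ha V hV).1 h))
      have hD' : (z '' D).Nonempty := hD.image _
      have hdir' : DirectedOn SpecLE (z '' D) := by
        rintro _ ⟨a, ha, rfl⟩ _ ⟨b, hb, rfl⟩
        obtain ⟨c, hc, hac, hbc⟩ := hdir a ha b hb
        exact ⟨z c, ⟨c, hc, rfl⟩, hmono a ha c hc hac, hmono b hb c hc hbc⟩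
      obtain ⟨t, ht, -⟩ := hZ.2 _ hD' hdir'
      refine ⟨t, fun V hV => ?_⟩
      rw [hZ.mem_iff hD' hdir' ht hV, hY.mem_iff hD hdir hsup (he1 V hV)]
      constructor
      · rintro ⟨_, ⟨a, ha, rfl⟩, h⟩
        exact ⟨a, ha, (hz a ha V hV).1 h⟩
      · rintro ⟨a, ha, h⟩
        exact ⟨z a, ⟨a, ha, rfl⟩, (hz a ha V hV).2 h⟩
  choose g hgV using key
  refine ⟨g, ⟨?_, ?_⟩, ?_⟩
  · refine ⟨fun V hV => ?_⟩
    have : g ⁻¹' V = e V := by
      ext y
      exact hgV y V hV
    rw [this]
    exact he1 V hV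
  · funext x
    refine eq_of_open fun V hV => ?_
    rw [Function.comp_apply, hgV (μ x) V hV]
    exact Set.ext_iff.1 (he2 V hV) x
  · rintro g' ⟨hg', hg'μ⟩
    funext y
    refine eq_of_open fun V hV => ?_
    rw [hgV y V hV]
    have h1 : g' ⁻¹' V = e V := by
      have h2 : μ ⁻¹' (g' ⁻¹' V) = μ ⁻¹' e V := by
        rw [he2 V hV, ← hg'μ]
        rfl
      exact Subset.antisymm (hg.subset hY (hV.preimage hg') (he1 V hV) h2.subset)
        (hg.subset hY (he1 V hV) (hV.preimage hg') h2.symm.subset)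
    exact Set.ext_iff.1 h1 y

end Basic

section Product

variable {I : Type u} {X W : I → Type u} [∀ i, TopologicalSpace (X i)]
  [∀ i, TopologicalSpace (W i)]

theorem specLE_pi {x y : ∀ i, W i} : SpecLE x y ↔ ∀ i, SpecLE (x i) (y i) := by
  rw [specLE_iff, specializes_pi]
  exact forall_congr' fun i => specLE_iff.symm

/-- Products of `d`-spaces are `d`-spaces. -/
theorem isDSpace_pi (h : ∀ i, IsDSpace (W i)) : IsDSpace (∀ i, W i) := by
  have := fun i => (h i).1
  refine ⟨inferInstance, fun D hD hdir => ?_⟩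
  have hn : ∀ i, ((fun z : ∀ i, W i => z i) '' D).Nonempty := fun i => hD.image _
  have hd : ∀ i, DirectedOn SpecLE ((fun z : ∀ i, W i => z i) '' D) := by
    rintro i _ ⟨a, ha, rfl⟩ _ ⟨b, hb, rfl⟩
    obtain ⟨c, hc, hac, hbc⟩ := hdir a ha b hb
    exact ⟨c i, ⟨c, hc, rfl⟩, specLE_pi.1 hac i, specLE_pi.1 hbc i⟩
  choose s hs hsU using fun i => (h i).2 _ (hn i) (hd i)
  refine ⟨s, ⟨fun d hd => specLE_pi.2 fun i => (hs i).1 _ ⟨d, hd, rfl⟩, fun b hb =>
    specLE_pi.2 fun i => (hs i).2 _ ?_⟩, ?_⟩
  · rintro _ ⟨d, hd, rfl⟩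
    exact specLE_pi.1 (hb d hd) i
  · intro U hU hsU'
    obtain ⟨F, u, hu, huU⟩ := isOpen_pi_iff.1 hU s hsU'
    -- a member of `D` in the box
    have key : ∀ G : Finset I, G ⊆ F → ∃ d ∈ D, ∀ i ∈ G, d i ∈ u i := by
      classical
      intro G
      induction G using Finset.induction_on with
      | empty =>
        intro _
        obtain ⟨d, hd⟩ := hD
        exact ⟨d, hd, by simp⟩
      | insert i G hi ih =>
        intro hG
        obtain ⟨d, hd, hdG⟩ := ih fun j hj => hG (Finset.mem_insert_of_mem hj)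
        have hiF : i ∈ F := hG (Finset.mem_insert_self i G)
        obtain ⟨_, ⟨d', hd', rfl⟩, hd'i⟩ := hsU i (u i) (hu i hiF).1 (hu i hiF).2
        obtain ⟨c, hc, hdc, hd'c⟩ := hdir d hd d' hd'
        refine ⟨c, hc, fun j hj => ?_⟩
        rcases Finset.mem_insert.1 hj with rfl | hj
        · exact (specLE_pi.1 hd'c j).mem (hu j hiF).1 hd'i
        · exact (specLE_pi.1 hdc j).mem (hu j (hG (Finset.mem_insert_of_mem hj))).1 (hdG j hj)
    obtain ⟨d, hd, hdF⟩ := key F subset_rfl
    exact ⟨d, hd, huU fun i hi => hdF i hi⟩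

/-- every open set of the product of the `X i` is a preimage -/
theorem surj_pi {μ : ∀ i, X i → W i} (h : ∀ i, Surj (μ i)) :
    Surj (fun (x : ∀ i, X i) (i : I) => μ i (x i)) := by
  intro U hU
  refine ⟨⋃₀ {B : Set (∀ i, W i) | IsOpen B ∧ (fun (x : ∀ i, X i) (i : I) => μ i (x i)) ⁻¹' B ⊆ U},
    isOpen_sUnion fun B hB => hB.1, ?_⟩
  apply Subset.antisymm
  · rintro x ⟨B, hB, hx⟩
    exact hB.2 hx
  · intro x hx
    obtain ⟨F, u, hu, huU⟩ := isOpen_pi_iff.1 hU x hx
    have hex : ∀ i ∈ F, ∃ V : Set (W i), IsOpen V ∧ μ i ⁻¹' V = u i := fun i hi =>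
      h i (u i) (hu i hi).1
    choose! V hV1 hV2 using hex
    refine ⟨(F : Set I).pi V, ⟨isOpen_set_pi F.finite_toSet fun i hi => hV1 i hi, ?_⟩, ?_⟩
    · intro z hz
      refine huU fun i hi => ?_
      have h1 : μ i (z i) ∈ V i := hz i hi
      have h2 : z i ∈ μ i ⁻¹' V i := h1
      rwa [hV2 i hi] at h2
    · intro i hi
      have h2 : x i ∈ μ i ⁻¹' V i := by
        rw [hV2 i hi]
        exact (hu i hi).2
      exact h2

omit [∀ i, TopologicalSpace (X i)] in
/-- The image of the product generates the product. -/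
theorem gen_pi {μ : ∀ i, X i → W i} (h : ∀ i, Gen (μ i)) :
    Gen (fun (x : ∀ i, X i) (i : I) => μ i (x i)) := by
  classical
  intro S hS hcl
  -- change finitely many coordinates
  have step : ∀ F : Finset I, ∀ z : ∀ i, W i, (∀ i ∉ F, z i ∈ range (μ i)) → z ∈ S := by
    intro F
    induction F using Finset.induction_on with
    | empty =>
      intro z hz
      choose x hx using fun i => hz i (by simp)
      have : z = fun i => μ i (x i) := funext fun i => (hx i).symm
      rw [this]
      exact hS x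
    | insert i F hi ih =>
      intro z hz
      have h1 := h i {w | Function.update z i w ∈ S} (fun x => ih _ fun j hj => ?_) ?_ (z i)
      · rw [mem_ofPred_eq, Function.update_eq_self] at h1
        exact h1
      · by_cases hji : j = i
        · subst hji
          rw [Function.update_self]
          exact ⟨x, rfl⟩
        · rw [Function.update_of_ne hji]
          exact hz j (by simp [hji, hj])
      · intro D hDS hD hdir s hs
        refine hcl ((Function.update z i) '' D) ?_ (hD.image _) ?_ _ ?_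
        · rintro _ ⟨w, hw, rfl⟩
          exact hDS hw
        · rintro _ ⟨a, ha, rfl⟩ _ ⟨b, hb, rfl⟩
          obtain ⟨c, hc, hac, hbc⟩ := hdir a ha b hb
          refine ⟨_, ⟨c, hc, rfl⟩, specLE_pi.2 fun j => ?_, specLE_pi.2 fun j => ?_⟩
          · by_cases hji : j = i
            · subst hji; simpa using hac
            · simpa [Function.update_of_ne hji] using specLE_refl (z j)
          · by_cases hji : j = i
            · subst hji; simpa using hbc
            · simpa [Function.update_of_ne hji] using specLE_refl (z j)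
        · constructor
          · rintro _ ⟨w, hw, rfl⟩
            refine specLE_pi.2 fun j => ?_
            by_cases hji : j = i
            · subst hji; simpa using hs.1 w hw
            · simpa [Function.update_of_ne hji] using specLE_refl (z j)
          · intro b hb
            refine specLE_pi.2 fun j => ?_
            by_cases hji : j = i
            · subst hji
              rw [Function.update_self]
              refine hs.2 _ fun d hd => ?_
              simpa using specLE_pi.1 (hb _ ⟨d, hd, rfl⟩) j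
            · obtain ⟨d, hd⟩ := hD
              rw [Function.update_of_ne hji]
              simpa [Function.update_of_ne hji] using specLE_pi.1 (hb _ ⟨d, hd, rfl⟩) j
  -- points of the image below the coordinates
  have below : ∀ i (w : W i), ∃ x : X i, SpecLE (μ i x) w := by
    intro i
    refine h i {w | ∃ x : X i, SpecLE (μ i x) w} (fun x => ⟨x, specLE_refl _⟩) ?_
    intro D hDS ⟨d, hd⟩ _ s hs
    obtain ⟨x, hx⟩ := hDS hd
    exact ⟨x, hx.trans (hs.1 d hd)⟩
  intro z
  choose x hx using fun i => below i (z i)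
  set zz : Finset I → ∀ i, W i := fun F i => if i ∈ F then z i else μ i (x i) with hzz
  have hmono : ∀ F G : Finset I, F ⊆ G → SpecLE (zz F) (zz G) := by
    intro F G hFG
    refine specLE_pi.2 fun i => ?_
    simp only [hzz]
    by_cases h1 : i ∈ F
    · rw [if_pos h1, if_pos (hFG h1)]
      exact specLE_refl _
    · rw [if_neg h1]
      by_cases h2 : i ∈ G
      · rw [if_pos h2]
        exact hx i
      · rw [if_neg h2]
        exact specLE_refl _
  refine hcl (range zz) ?_ (range_nonempty _) ?_ z ?_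
  · rintro _ ⟨F, rfl⟩
    refine step F _ fun i hi => ?_
    simp only [hzz, if_neg hi]
    exact ⟨x i, rfl⟩
  · rintro _ ⟨F, rfl⟩ _ ⟨G, rfl⟩
    exact ⟨_, ⟨F ∪ G, rfl⟩, hmono _ _ Finset.subset_union_left, hmono _ _ Finset.subset_union_right⟩
  · constructor
    · rintro _ ⟨F, rfl⟩
      refine specLE_pi.2 fun i => ?_
      simp only [hzz]
      by_cases h1 : i ∈ F
      · rw [if_pos h1]; exact specLE_refl _
      · rw [if_neg h1]; exact hx i
    · intro b hb
      refine specLE_pi.2 fun i => ?_
      have h1 := specLE_pi.1 (hb _ ⟨{i}, rfl⟩) i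
      simpa [hzz] using h1

/-- The product of `d`-reflections is a `d`-reflection. -/
theorem isDReflection_pi {μ : ∀ i, X i → W i} (h : ∀ i, IsDReflection (μ i)) :
    IsDReflection (fun (x : ∀ i, X i) (i : I) => μ i (x i)) := by
  refine isDReflection_of_gen ?_ (isDSpace_pi fun i => (h i).1) (gen_pi fun i => (h i).gen)
    (surj_pi fun i => (h i).surj)
  exact continuous_pi fun i => (h i).2.1.comp (continuous_apply i)

end Product

/-- Two `d`-reflections of the same space are homeomorphic. -/
theorem IsDReflection.homeo {X W W' : Type u} [TopologicalSpace X] [TopologicalSpace W]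
    [TopologicalSpace W'] {μ : X → W} {ν : X → W'} (h : IsDReflection μ) (h' : IsDReflection ν) :
    ∃ e : W ≃ₜ W', ∀ x, e (μ x) = ν x := by
  obtain ⟨g, ⟨hg, hgμ⟩, -⟩ := h.2.2 W' h'.1 ν h'.2.1
  obtain ⟨g', ⟨hg', hg'ν⟩, -⟩ := h'.2.2 W h.1 μ h.2.1
  obtain ⟨_, -, hu⟩ := h.2.2 W h.1 μ h.2.1
  obtain ⟨_, -, hu'⟩ := h'.2.2 W' h'.1 ν h'.2.1
  have e1 : g' ∘ g = id := (hu (g' ∘ g) ⟨hg'.comp hg, by
    rw [Function.comp_assoc, hgμ, hg'ν]⟩).trans (hu id ⟨continuous_id, rfl⟩).symm
  have e2 : g ∘ g' = id := (hu' (g ∘ g') ⟨hg.comp hg', by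
    rw [Function.comp_assoc, hg'ν, hgμ]⟩).trans (hu' id ⟨continuous_id, rfl⟩).symm
  exact ⟨⟨⟨g, g', congrFun e1, congrFun e2⟩, hg, hg'⟩, congrFun hgμ⟩

/-- Every `T₀` space has a `d`-reflection: the subspace generated by the image of `X` in a power of
the Sierpinski space. (This is known; it is recorded to show that the hypotheses of the main
theorem can be met for every family of `T₀` spaces.) -/
theorem exists_isDReflection (X : Type u) [TopologicalSpace X] [T0Space X] :
    ∃ (W : Type u) (_ : TopologicalSpace W) (μ : X → W), IsDReflection μ := by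
  let P : Type u := {U : Set X // IsOpen U} → Sier.{u}
  let j : X → P := fun x U => ⟨x ∈ U.1⟩
  have hj : Continuous j := continuous_pi fun U => continuous_sier U.2
  have hP : IsDSpace P := isDSpace_pi fun _ => isDSpace_sier
  let S : Set P := ⋂₀ {S : Set P | (∀ x, j x ∈ S) ∧ DirClosed S}
  have hjS : ∀ x, j x ∈ S := fun x T hT => hT.1 x
  have hS : DirClosed S := by
    intro D hDS hD hdir s hs T hT
    exact hT.2 D (fun d hd => hDS hd T hT) hD hdir s hs
  refine ⟨S, inferInstance, fun x => ⟨j x, hjS x⟩, isDReflection_of_gen (hj.subtype_mk _)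
    (isDSpace_subtype hP hS) ?_ ?_⟩
  · intro T hT hTcl
    have h1 : Subtype.val '' T ∈ {S : Set P | (∀ x, j x ∈ S) ∧ DirClosed S} := by
      refine ⟨fun x => ⟨_, hT x, rfl⟩, ?_⟩
      intro D hDS hD hdir s hs
      have hle : ∀ a b : S, SpecLE a b ↔ SpecLE (a : P) (b : P) := by
        intro a b
        rw [specLE_iff, specLE_iff, subtype_specializes_iff]
      have hDS' : D ⊆ S := fun d hd => by
        obtain ⟨a, -, rfl⟩ := hDS hd
        exact a.2
      have hsS : s ∈ S := hS D hDS' hD hdir s hs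
      refine ⟨⟨s, hsS⟩, ?_, rfl⟩
      refine hTcl (Subtype.val ⁻¹' D) ?_ ?_ ?_ _ ?_
      · intro a ha
        obtain ⟨b, hb, hba⟩ := hDS ha
        have : b = a := Subtype.ext hba
        exact this ▸ hb
      · obtain ⟨d, hd⟩ := hD
        exact ⟨⟨d, hDS' hd⟩, hd⟩
      · intro a ha b hb
        obtain ⟨c, hc, hac, hbc⟩ := hdir a ha b hb
        exact ⟨⟨c, hDS' hc⟩, hc, (hle _ _).2 hac, (hle _ _).2 hbc⟩
      · refine ⟨fun a ha => (hle _ _).2 (hs.1 _ ha), fun b hb => (hle _ _).2 (hs.2 _ ?_)⟩
        intro d hd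
        exact (hle ⟨d, hDS' hd⟩ b).1 (hb ⟨d, hDS' hd⟩ hd)
    intro y
    obtain ⟨a, ha, hay⟩ := y.2 _ h1
    have : a = y := Subtype.ext hay
    exact this ▸ ha
  · intro U hU
    refine ⟨Subtype.val ⁻¹' ((fun p : P => p ⟨U, hU⟩) ⁻¹' {p | p.down}),
      (isOpen_sier.preimage (continuous_apply _)).preimage continuous_subtype_val, ?_⟩
    rfl

/-- **The `d`-reflection preserves arbitrary products.** Let `X i`, `i : I`, be `T₀` spaces with
`d`-reflections `μ i : X i → Xd i`. Then the product map `∏ X i → ∏ Xd i` is a `d`-reflection of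
`∏ X i`, and for every `d`-reflection `ν : ∏ X i → W` there is a homeomorphism of `W` onto
`∏ Xd i` which takes `ν x` to `(μ i (x i))_i`. -/
theorem result {I : Type u} (X : I → Type u) [∀ i, TopologicalSpace (X i)] [∀ i, T0Space (X i)]
    (Xd : I → Type u) [∀ i, TopologicalSpace (Xd i)] (μ : ∀ i, X i → Xd i)
    (hμ : ∀ i, IsDReflection (μ i)) :
    IsDReflection (fun (x : ∀ i, X i) (i : I) => μ i (x i)) ∧
    ∀ (W : Type u) [TopologicalSpace W] (ν : (∀ i, X i) → W), IsDReflection ν →
      ∃ e : W ≃ₜ (∀ i, Xd i), ∀ x : ∀ i, X i, e (ν x) = fun i => μ i (x i) :=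
  ⟨isDReflection_pi hμ, fun _ _ _ hν => hν.homeo (isDReflection_pi hμ)⟩

end Pool.Agent.Results.MP_c8df5e_gt.ArbitraryProducts
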